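import Mathlib
import Pool.Agent.W610.CP.Main

/-!
Monochromatic convex `p`-gons in two-coloured point sets: `log g(p) = O(p² log p)`.
-/

namespace Pool.Agent.Results.MP_6c3374_co.PolynomialExponent

open Pool.Agent.W610.CP

/-- For every `p ≥ 3` the number `g p` exists (it has the defining property, and so has every
`n ≥ (2p)^(4p²)`), and `log₂ (g p) ≤ 4 p² log₂ (2p)`.  The known bound was `2^(2p+1)`. -/
theorem result (p : ℕ) (hp : 3 ≤ p) :
    Arrow p (g p) ∧ (∀ n : ℕ, (2 * p) ^ (4 * p ^ 2) ≤ n → Arrow p n) ∧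
      g p ≤ (2 * p) ^ (4 * p ^ 2) ∧
      Real.logb 2 (g p) ≤ 4 * (p : ℝ) ^ 2 * Real.logb 2 (2 * p) := by
  refine ⟨arrow_g p hp, arrow p hp, g_le p hp, ?_⟩
  have hg : g p ≤ (2 * p) ^ (4 * p ^ 2) := g_le p hp
  have hpos : (0 : ℝ) < 2 * p := by
    have : (3 : ℝ) ≤ p := by exact_mod_cast hp
    linarith
  rcases Nat.eq_zero_or_pos (g p) with h0 | h0
  · rw [h0]
    have h1 : (1 : ℝ) ≤ 2 * p := by
      have : (3 : ℝ) ≤ p := by exact_mod_cast hp
      linarith
    have h2 : 0 ≤ Real.logb 2 (2 * (p : ℝ)) := Real.logb_nonneg (by norm_num) h1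
    simp only [Nat.cast_zero, Real.logb_zero]
    positivity
  · have h1 : ((g p : ℕ) : ℝ) ≤ (2 * (p : ℝ)) ^ (4 * p ^ 2) := by exact_mod_cast hg
    calc Real.logb 2 (g p) ≤ Real.logb 2 ((2 * (p : ℝ)) ^ (4 * p ^ 2)) :=
          Real.logb_le_logb_of_le (by norm_num) (by exact_mod_cast h0) h1
      _ = 4 * (p : ℝ) ^ 2 * Real.logb 2 (2 * p) := by
          rw [Real.logb_pow]
          push_cast
          ring

end Pool.Agent.Results.MP_6c3374_co.PolynomialExponent
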