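import Pool.Agent.W443.MC.Main

/-!
# MP_6c3374_co: the logarithm of `g p` grows polynomially

`g p` is the least `n` such that every `n` points of the plane in general position with
two-coloured pairs contain `p` points in convex position all of whose pairs have the same colour.

The known bounds were `p / 2 < log₂ (g p) ≤ 2 ^ (2 p + 1)`.  We prove
`log₂ (g p) ≤ 4 p² log₂ (2 p)`, so `log₂ (g p)` grows at most like `p² log p`.
-/

namespace Pool.Agent.Results.MP_6c3374_co.PolynomialLog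

/-- No three points of `P` are collinear. -/
def GenPos (P : Finset (ℝ × ℝ)) : Prop :=
  ∀ a ∈ P, ∀ b ∈ P, ∀ c ∈ P, a ≠ b → a ≠ c → b ≠ c → ¬ Collinear ℝ {a, b, c}

/-- Convex position: each point is a vertex of the convex hull, that is, it does not lie in the
convex hull of the other points. -/
def ConvPos (Q : Finset (ℝ × ℝ)) : Prop :=
  ∀ x ∈ Q, x ∉ convexHull ℝ ((Q : Set (ℝ × ℝ)) \ {x})

/-- Every `n` points in general position with 2-coloured pairs contain `p` points in convex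
position whose pairs all have the same colour. -/
def MonoProp (p n : ℕ) : Prop :=
  ∀ P : Finset (ℝ × ℝ), P.card = n → GenPos P → ∀ χ : Sym2 (ℝ × ℝ) → Bool,
    ∃ Q ⊆ P, Q.card = p ∧ ConvPos Q ∧ ∃ c : Bool, ∀ x ∈ Q, ∀ y ∈ Q, x ≠ y → χ s(x, y) = c

/-- `g p` is the least `n` with `MonoProp p n`. -/
noncomputable def g (p : ℕ) : ℕ := sInf {n | MonoProp p n}

/-- For every `p ≥ 3`: with `m = 2 (p - 2)² + 1`, all `n ≥ 2 ^ m * m!` have the property, so the
minimum `g p` exists (it has the property) and is at most `2 ^ m * m!`; consequently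
`log₂ (g p) ≤ 4 p² log₂ (2 p)`. -/
theorem result : ∀ p : ℕ, 3 ≤ p →
    (∀ n : ℕ, 2 ^ (2 * (p - 2) ^ 2 + 1) * (2 * (p - 2) ^ 2 + 1).factorial ≤ n → MonoProp p n) ∧
    MonoProp p (g p) ∧
    g p ≤ 2 ^ (2 * (p - 2) ^ 2 + 1) * (2 * (p - 2) ^ 2 + 1).factorial ∧
    Real.logb 2 (g p) ≤ 4 * (p : ℝ) ^ 2 * Real.logb 2 (2 * p) := by
  intro p hp
  have h1 : ∀ n : ℕ, 2 ^ (2 * (p - 2) ^ 2 + 1) * (2 * (p - 2) ^ 2 + 1).factorial ≤ n →
      MonoProp p n := fun n hn => W443.MC.monoProp p n (by omega) hn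
  have h2 : g p ≤ 2 ^ (2 * (p - 2) ^ 2 + 1) * (2 * (p - 2) ^ 2 + 1).factorial :=
    Nat.sInf_le (h1 _ le_rfl)
  have hmem : g p ∈ {n | MonoProp p n} := Nat.sInf_mem ⟨_, h1 _ le_rfl⟩
  refine ⟨h1, hmem, h2, ?_⟩
  have hp' : (3 : ℝ) ≤ p := by exact_mod_cast hp
  have h3 : g p ≤ (2 * p) ^ (4 * p ^ 2) := h2.trans (W443.MC.pow_bound p (by omega))
  rcases Nat.eq_zero_or_pos (g p) with h0 | hpos
  · rw [h0]
    simp only [Nat.cast_zero, Real.logb_zero]
    have : 0 ≤ Real.logb 2 (2 * (p : ℝ)) := Real.logb_nonneg (by norm_num) (by linarith)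
    positivity
  · have h4 : (g p : ℝ) ≤ ((2 * p : ℝ)) ^ (4 * p ^ 2) := by exact_mod_cast h3
    have h5 := Real.logb_le_logb_of_le (b := 2) (by norm_num) (by exact_mod_cast hpos) h4
    rw [Real.logb_pow] at h5
    push_cast at h5
    exact h5

end Pool.Agent.Results.MP_6c3374_co.PolynomialLog
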